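import Mathlib

set_option autoImplicit false

namespace Pool.Agent.H29.HopfOrd

open TensorProduct

section Defs

variable (R K L : Type*) [CommRing R] [Field K] [Field L] [Algebra R L] [Algebra K L]

/-- The usual action of the group algebra `K[G]`, `G = Gal(L/K)`, on `L`:
`(∑ c_g g) x = ∑ c_g g(x)`. -/
noncomputable def actClassical (z : MonoidAlgebra K (L ≃ₐ[K] L)) (x : L) : L :=
  z.coeff.sum fun g c => algebraMap K L c * g x

/-- The associated order of `B` in `K[G]`: all `z` in `K[G]` with `z(B) ⊆ B`. -/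
def assocClassical (B : Set L) : Set (MonoidAlgebra K (L ≃ₐ[K] L)) :=
  {z | ∀ x ∈ B, actClassical K L z x ∈ B}

/-- `H_λ = L[λ(G)]^G`. An element `∑ c_τ λ(τ)` of `L[λ(G)]` is written as the element `∑ c_τ τ`
of `L[G]`. The group `G` acts on it by `g · ∑ c_τ λ(τ) = ∑ g(c_τ) λ(g τ g⁻¹)`, so it is fixed by
`G` if and only if `c_{g τ g⁻¹} = g(c_τ)` for all `g` and `τ`. -/
def HLambda : Set (MonoidAlgebra L (L ≃ₐ[K] L)) :=
  {h | ∀ g τ : L ≃ₐ[K] L, h.coeff (g * τ * g⁻¹) = g (h.coeff τ)}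

/-- The action of `H_λ` on `L`: `(∑ c_τ λ(τ)) · x = ∑ c_τ λ(τ)⁻¹(1_G)(x) = ∑ c_τ τ⁻¹(x)`. -/
noncomputable def actLambda (h : MonoidAlgebra L (L ≃ₐ[K] L)) (x : L) : L :=
  h.coeff.sum fun τ c => c * τ⁻¹ x

/-- The associated order of `B` in `H_λ`: all `h` in `H_λ` with `h · B ⊆ B`. -/
def assocLambda (B : Set L) : Set (MonoidAlgebra L (L ≃ₐ[K] L)) :=
  {h | h ∈ HLambda K L ∧ ∀ x ∈ B, actLambda K L h x ∈ B}

end Defs

/-- Let `H` be a `K`-form of the Hopf algebra `S[G]` inside `S[G]`, with the restricted Hopf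
structure (for `K[G]` this is `S = K`, `H = K[G]`; for `H_λ` it is `S = L`, `H = H_λ`).
`IsHopfOrder R K H A` says that `A` is a Hopf order over `R` in `H`: it is a subring with `1`,
it is a finitely generated `R`-module spanning `H` over `K`, `Δ(A)` lies in the image of
`A ⊗ A` (the additive group generated by all `x ⊗ y` with `x, y` in `A`), `ε(A) ⊆ R`
and `S(A) ⊆ A`. -/
structure IsHopfOrder (R K : Type*) {S G : Type*} [CommRing R] [Field K] [Field S] [Algebra R S]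
    [Algebra K S] [Group G] (H A : Set (MonoidAlgebra S G)) : Prop where
  one_mem : (1 : MonoidAlgebra S G) ∈ A
  mul_mem : ∀ a ∈ A, ∀ b ∈ A, a * b ∈ A
  fg : ∃ s : Finset (MonoidAlgebra S G),
    (Submodule.span R (s : Set (MonoidAlgebra S G)) : Set (MonoidAlgebra S G)) = A
  spans : (Submodule.span K A : Set (MonoidAlgebra S G)) = H
  comul_mem : ∀ a ∈ A, Coalgebra.comul (R := S) a ∈ AddSubgroup.closure
    {w : MonoidAlgebra S G ⊗[S] MonoidAlgebra S G | ∃ x ∈ A, ∃ y ∈ A, w = x ⊗ₜ[S] y}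
  counit_mem : ∀ a ∈ A, Coalgebra.counit (R := S) a ∈ Set.range (algebraMap R S)
  antipode_mem : ∀ a ∈ A, HopfAlgebra.antipode S a ∈ A

end Pool.Agent.H29.HopfOrd
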