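import Mathlib

set_option autoImplicit false

namespace Pool.Agent.H29.HopfOrd

open Polynomial

/-- The field with four elements. -/
abbrev F4 : Type := GaloisField 2 2

theorem F4_pow_four (x : F4) : x ^ 4 = x := by
  have : Fintype F4 := Fintype.ofFinite F4
  have h := FiniteField.pow_card x
  have h2 : Fintype.card F4 = 4 := by
    rw [← Nat.card_eq_fintype_card, GaloisField.card 2 2 (by norm_num)]
    norm_num
  rwa [h2] at h

theorem exists_omega : ∃ w : F4, w ^ 2 + w + 1 = 0 := by
  classical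
  have : Fintype F4 := Fintype.ofFinite F4
  have h2 : Nat.card F4 = 4 := by
    rw [GaloisField.card 2 2 (by norm_num)]; norm_num
  obtain ⟨w, hw⟩ : ∃ w : F4, w ∉ ({0, 1} : Finset F4) := by
    by_contra h
    push Not at h
    have h3 : (Finset.univ : Finset F4) ⊆ {0, 1} := fun y _ => h y
    have h4 := Finset.card_le_card h3
    have h5 : ({0, 1} : Finset F4).card ≤ 2 := Finset.card_le_two
    rw [Finset.card_univ, ← Nat.card_eq_fintype_card, h2] at h4
    omega
  simp only [Finset.mem_insert, Finset.mem_singleton, not_or] at hw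
  refine ⟨w, ?_⟩
  have h := F4_pow_four w
  have h3 : w * (w - 1) * (w ^ 2 + w + 1) = 0 := by linear_combination h
  rcases mul_eq_zero.mp h3 with h4 | h4
  · rcases mul_eq_zero.mp h4 with h5 | h5
    · exact absurd h5 hw.1
    · exact absurd (sub_eq_zero.mp h5) hw.2
  · exact h4

/-- A primitive cube root of unity in `F4`. -/
noncomputable def om : F4 := exists_omega.choose

theorem om_spec : om ^ 2 + om + 1 = 0 := exists_omega.choose_spec

/-- `K = 𝔽₂(t)` -/
abbrev K₀ : Type := FractionRing (ZMod 2)[X]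

/-- `L = 𝔽₄(s)` -/
def L₀ : Type := FractionRing F4[X]

noncomputable instance : Field L₀ := inferInstanceAs (Field (FractionRing F4[X]))

/-- the inclusion `𝔽₄[s] → L` -/
noncomputable def jL : F4[X] →+* L₀ := algebraMap F4[X] (FractionRing F4[X])

theorem jL_injective : Function.Injective jL := IsFractionRing.injective F4[X] (FractionRing F4[X])

/-- `𝔽₂[t] → 𝔽₄[s]`, `t ↦ s ^ 3`. -/
noncomputable def iA : (ZMod 2)[X] →+* F4[X] :=
  (Polynomial.expand F4 3 : F4[X] →+* F4[X]).comp (Polynomial.mapRingHom (algebraMap (ZMod 2) F4))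

theorem iA_injective : Function.Injective iA := by
  intro a b h
  have h1 : Polynomial.expand F4 3 (a.map (algebraMap (ZMod 2) F4)) =
    Polynomial.expand F4 3 (b.map (algebraMap (ZMod 2) F4)) := h
  have h2 := Polynomial.expand_injective (R := F4) (n := 3) (by norm_num) h1
  exact Polynomial.map_injective _ (algebraMap (ZMod 2) F4).injective h2

theorem iA_X : iA X = X ^ 3 := by
  simp [iA]

noncomputable instance algAL : Algebra (ZMod 2)[X] L₀ := (jL.comp iA).toAlgebra

theorem algebraMap_AL (a : (ZMod 2)[X]) : algebraMap (ZMod 2)[X] L₀ a = jL (iA a) := rfl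

theorem algebraMap_AL_injective : Function.Injective (algebraMap (ZMod 2)[X] L₀) :=
  jL_injective.comp iA_injective

noncomputable instance algKL : Algebra K₀ L₀ :=
  (IsFractionRing.lift (K := K₀) algebraMap_AL_injective : K₀ →+* L₀).toAlgebra

instance : IsScalarTower (ZMod 2)[X] K₀ L₀ := by
  apply IsScalarTower.of_algebraMap_eq
  intro x
  exact (IsFractionRing.lift_algebraMap algebraMap_AL_injective x).symm

/-- the variable `s` -/
noncomputable def sL : L₀ := jL X

/-- the cube root of unity in `L` -/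
noncomputable def wL : L₀ := jL (C om)

theorem wL_spec : wL ^ 2 + wL + 1 = 0 := by
  have : jL (C (om ^ 2 + om + 1)) = 0 := by rw [om_spec]; simp
  simpa [wL] using this

theorem wL_cube : wL ^ 3 = 1 := by
  linear_combination (wL - 1) * wL_spec

theorem sL_ne_zero : sL ≠ 0 := by
  intro h
  have : jL X = jL 0 := by rw [map_zero]; exact h
  exact X_ne_zero (jL_injective this)

theorem wL_ne_zero : wL ≠ 0 := by
  intro h
  have := wL_cube
  rw [h] at this
  norm_num at this

theorem wL_ne_one : wL ≠ 1 := by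
  intro h
  have h1 := wL_spec
  rw [h] at h1
  have h2 : jL (C (1 : F4)) = 0 := by
    have : (1 : F4) = 1 + 1 + 1 := by
      have : (2 : F4) = 0 := CharP.cast_eq_zero F4 2
      linear_combination -this
    rw [this]
    simp only [map_add, map_one]
    linear_combination h1
  simp at h2

theorem two_eq_zero : (2 : L₀) = 0 := by
  have h2 : (2 : F4) = 0 := CharP.cast_eq_zero F4 2
  have h : jL (C (2 : F4)) = 0 := by rw [h2, C_0, map_zero]
  have h3 : (C (2 : F4) : F4[X]) = 2 := rfl
  rw [h3, map_ofNat] at h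
  exact h

theorem algebraMap_t : algebraMap (ZMod 2)[X] L₀ X = sL ^ 3 := by
  rw [algebraMap_AL, iA_X, map_pow]; rfl

/-- `s ↦ ω s` on `𝔽₄[s]`. -/
noncomputable def sigB (a : F4) : F4[X] →+* F4[X] := Polynomial.compRingHom (C a * X)

theorem sigB_coeff (a : F4) (f : F4[X]) (n : ℕ) : (sigB a f).coeff n = a ^ n * f.coeff n := by
  have : sigB a f = f.comp (C a * X) := rfl
  rw [this, comp_C_mul_X_coeff]
  ring

theorem sigB_comp (a b : F4) (f : F4[X]) : sigB a (sigB b f) = sigB (a * b) f := by
  ext n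
  rw [sigB_coeff, sigB_coeff, sigB_coeff]; ring

theorem sigB_one (f : F4[X]) : sigB 1 f = f := by
  ext n; rw [sigB_coeff]; simp

/-- The automorphism of `L` induced by an automorphism of `𝔽₄[s]`. -/
noncomputable def liftEquiv (e : F4[X] ≃+* F4[X]) : L₀ ≃+* L₀ :=
  IsFractionRing.ringEquivOfRingEquiv (K := FractionRing F4[X]) (L := FractionRing F4[X]) e

theorem liftEquiv_jL (e : F4[X] ≃+* F4[X]) (f : F4[X]) : liftEquiv e (jL f) = jL (e f) :=
  IsFractionRing.ringEquivOfRingEquiv_algebraMap (K := FractionRing F4[X])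
    (L := FractionRing F4[X]) e f

theorem exists_div (x : L₀) : ∃ f g : F4[X], g ≠ 0 ∧ x = jL f / jL g := by
  obtain ⟨f, g, hg, h⟩ := IsFractionRing.div_surjective F4[X] (K := FractionRing F4[X]) x
  exact ⟨f, g, nonZeroDivisors.ne_zero hg, h.symm⟩

/-- An automorphism of `𝔽₄[s]` fixing `𝔽₂[t]` induces an element of `Gal(L/K)`. -/
noncomputable def toGal (e : F4[X] ≃+* F4[X]) (he : ∀ a, e (iA a) = iA a) : L₀ ≃ₐ[K₀] L₀ :=
  AlgEquiv.ofRingEquiv (f := liftEquiv e) (by
    intro x
    obtain ⟨a, b, hb, rfl⟩ := IsFractionRing.div_surjective (ZMod 2)[X] (K := K₀) x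
    rw [map_div₀, map_div₀, ← IsScalarTower.algebraMap_apply, ← IsScalarTower.algebraMap_apply,
      algebraMap_AL, algebraMap_AL, liftEquiv_jL, liftEquiv_jL, he, he])

theorem toGal_jL (e : F4[X] ≃+* F4[X]) (he : ∀ a, e (iA a) = iA a) (f : F4[X]) :
    toGal e he (jL f) = jL (e f) := liftEquiv_jL e f

/-- `s ↦ ω s` as an automorphism of `𝔽₄[s]` -/
noncomputable def sigE : F4[X] ≃+* F4[X] :=
  RingEquiv.ofRingHom (sigB om) (sigB (om ^ 2))
    (by
      ext1
      · ext a
        simp [sigB]
      · have h : om * om ^ 2 = 1 := by linear_combination (om - 1) * om_spec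
        simp only [RingHom.comp_apply, sigB_comp, h, sigB_one, RingHom.id_apply])
    (by
      ext1
      · ext a
        simp [sigB]
      · have h : om ^ 2 * om = 1 := by linear_combination (om - 1) * om_spec
        simp only [RingHom.comp_apply, sigB_comp, h, sigB_one, RingHom.id_apply])

theorem sigE_apply (f : F4[X]) : sigE f = sigB om f := rfl

theorem om_pow (k : ℕ) : om ^ (3 * k) = 1 := by
  have h : om ^ 3 = 1 := by linear_combination (om - 1) * om_spec
  rw [pow_mul, h, one_pow]

theorem sigE_fix (a : (ZMod 2)[X]) : sigE (iA a) = iA a := by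
  rw [sigE_apply]
  ext n
  rw [sigB_coeff]
  have h : iA a = Polynomial.expand F4 3 (a.map (algebraMap (ZMod 2) F4)) := rfl
  rw [h, coeff_expand (by norm_num)]
  split_ifs with hn
  · obtain ⟨k, rfl⟩ := hn
    rw [om_pow, one_mul]
  · simp

/-- Frobenius on coefficients as an automorphism of `𝔽₄[s]` -/
noncomputable def phiE : F4[X] ≃+* F4[X] := Polynomial.mapEquiv (frobeniusEquiv F4 2)

theorem phiE_coeff (f : F4[X]) (n : ℕ) : (phiE f).coeff n = (f.coeff n) ^ 2 := by
  simp [phiE, frobenius_def]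

theorem phiE_fix (a : (ZMod 2)[X]) : phiE (iA a) = iA a := by
  ext n
  rw [phiE_coeff]
  have h : iA a = Polynomial.expand F4 3 (a.map (algebraMap (ZMod 2) F4)) := rfl
  rw [h, coeff_expand (by norm_num)]
  split_ifs with hn
  · rw [coeff_map, ← map_pow]
    congr 1
    exact ZMod.pow_card _
  · simp

/-- The generator `σ : s ↦ ω s` of the inertia group. -/
noncomputable def sg : L₀ ≃ₐ[K₀] L₀ := toGal sigE sigE_fix

/-- The Frobenius `φ`. -/
noncomputable def ph : L₀ ≃ₐ[K₀] L₀ := toGal phiE phiE_fix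

theorem sg_jL (f : F4[X]) : sg (jL f) = jL (sigB om f) := toGal_jL _ _ _

theorem ph_jL (f : F4[X]) : ph (jL f) = jL (phiE f) := toGal_jL _ _ _

theorem sg_s : sg sL = wL * sL := by
  rw [sL, sg_jL, wL, ← map_mul]
  congr 1
  simp [sigB]

theorem sg_w : sg wL = wL := by
  rw [wL, sg_jL]
  congr 1
  simp [sigB]

theorem ph_s : ph sL = sL := by
  rw [sL, ph_jL]
  congr 1
  simp [phiE]

theorem ph_w : ph wL = wL ^ 2 := by
  rw [wL, ph_jL, ← map_pow]
  congr 1
  ext n
  rw [phiE_coeff, ← C_pow, coeff_C, coeff_C]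
  split_ifs <;> simp

end Pool.Agent.H29.HopfOrd
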