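import Pool.Agent.H29.HopfOrd.Fields

set_option autoImplicit false

namespace Pool.Agent.H29.HopfOrd

open Polynomial

theorem F4_cases (a : F4) : a = 0 ∨ a = 1 ∨ a = om ∨ a = om ^ 2 := by
  have h := F4_pow_four a
  have h1 := om_spec
  have h2 : a * (a - 1) * ((a - om) * (a - om ^ 2)) = 0 := by
    have h3 : om ^ 3 = 1 := by linear_combination (om - 1) * om_spec
    have h4 : (a - om) * (a - om ^ 2) = a ^ 2 + a + 1 := by
      linear_combination -a * h1 + h3
    rw [h4]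
    linear_combination h
  rcases mul_eq_zero.mp h2 with h3 | h3
  · rcases mul_eq_zero.mp h3 with h4 | h4
    · exact Or.inl h4
    · exact Or.inr (Or.inl (sub_eq_zero.mp h4))
  · rcases mul_eq_zero.mp h3 with h4 | h4
    · exact Or.inr (Or.inr (Or.inl (sub_eq_zero.mp h4)))
    · exact Or.inr (Or.inr (Or.inr (sub_eq_zero.mp h4)))

theorem jL_C (a : F4) : jL (C a) = 0 ∨ jL (C a) = 1 ∨ jL (C a) = wL ∨ jL (C a) = wL ^ 2 := by
  rcases F4_cases a with h | h | h | h
  · left; rw [h]; simp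
  · right; left; rw [h]; simp
  · right; right; left; rw [h]; rfl
  · right; right; right; rw [h, C_pow, map_pow]; rfl

/-- A subring of `L` containing `s` and `ω` contains `𝔽₄[s]`. -/
theorem jL_mem (S : Subring L₀) (hs : sL ∈ S) (hw : wL ∈ S) (f : F4[X]) : jL f ∈ S := by
  induction f using Polynomial.induction_on' with
  | add p q hp hq => rw [map_add]; exact S.add_mem hp hq
  | monomial n a =>
    rw [← C_mul_X_pow_eq_monomial, map_mul, map_pow]
    refine S.mul_mem ?_ (S.pow_mem hs n)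
    rcases jL_C a with h | h | h | h
    · rw [h]; exact S.zero_mem
    · rw [h]; exact S.one_mem
    · rw [h]; exact hw
    · rw [h]; exact S.pow_mem hw 2

theorem gal_ext (τ τ' : L₀ ≃ₐ[K₀] L₀) (hs : τ sL = τ' sL) (hw : τ wL = τ' wL) : τ = τ' := by
  have h1 : ∀ f, τ (jL f) = τ' (jL f) := by
    intro f
    have := jL_mem (RingHom.eqLocus (τ : L₀ →+* L₀) (τ' : L₀ →+* L₀)) hs hw f
    exact this
  apply AlgEquiv.ext
  intro x
  obtain ⟨f, g, hg, rfl⟩ := exists_div x
  rw [map_div₀, map_div₀, h1, h1]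

theorem tau_s (τ : L₀ ≃ₐ[K₀] L₀) : τ (sL ^ 3) = sL ^ 3 := by
  rw [← algebraMap_t, IsScalarTower.algebraMap_apply (ZMod 2)[X] K₀ L₀, τ.commutes]

theorem factor_cube (x : L₀) : x ^ 3 - sL ^ 3 = (x - sL) * ((x - wL * sL) * (x - wL ^ 2 * sL)) := by
  have h := wL_spec
  have h3 := wL_cube
  linear_combination (x ^ 2 * sL - x * sL ^ 2) * h + (sL ^ 3 - x * sL ^ 2) * h3

theorem sg_pow_s (j : ℕ) : (sg ^ j) sL = wL ^ j * sL := by
  induction j with
  | zero => simp
  | succ j ih =>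
    rw [pow_succ', AlgEquiv.mul_apply, ih, map_mul, map_pow, sg_w, sg_s]; ring

theorem sg_pow_w (j : ℕ) : (sg ^ j) wL = wL := by
  induction j with
  | zero => simp
  | succ j ih => rw [pow_succ', AlgEquiv.mul_apply, ih, sg_w]

theorem ph_pow_s (i : ℕ) : (ph ^ i) sL = sL := by
  induction i with
  | zero => simp
  | succ j ih => rw [pow_succ', AlgEquiv.mul_apply, ih, ph_s]

theorem gal_cases (τ : L₀ ≃ₐ[K₀] L₀) : ∃ (j : Fin 3) (i : Fin 2), τ = sg ^ (j : ℕ) * ph ^ (i : ℕ) := by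
  have hs : (τ sL) ^ 3 - sL ^ 3 = 0 := by rw [← map_pow, tau_s, sub_self]
  rw [factor_cube] at hs
  have hw : (τ wL) ^ 2 + τ wL + 1 = 0 := by
    have := congrArg τ wL_spec
    simpa using this
  have hw2 : τ wL = wL ∨ τ wL = wL ^ 2 := by
    have h1 : (τ wL - wL) * (τ wL - wL ^ 2) = 0 := by
      linear_combination hw - τ wL * wL_spec + wL_cube
    rcases mul_eq_zero.mp h1 with h | h
    · exact Or.inl (sub_eq_zero.mp h)
    · exact Or.inr (sub_eq_zero.mp h)
  have hj : ∃ j : Fin 3, τ sL = wL ^ (j : ℕ) * sL := by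
    rcases mul_eq_zero.mp hs with h | h
    · exact ⟨0, by simpa using sub_eq_zero.mp h⟩
    · rcases mul_eq_zero.mp h with h | h
      · exact ⟨1, by simpa using sub_eq_zero.mp h⟩
      · exact ⟨2, by simpa using sub_eq_zero.mp h⟩
  obtain ⟨j, hj⟩ := hj
  rcases hw2 with h | h
  · refine ⟨j, 0, gal_ext _ _ ?_ ?_⟩
    · rw [Fin.val_zero, pow_zero, mul_one, sg_pow_s, hj]
    · rw [Fin.val_zero, pow_zero, mul_one, sg_pow_w, h]
  · refine ⟨j, 1, gal_ext _ _ ?_ ?_⟩
    · rw [Fin.val_one, pow_one, AlgEquiv.mul_apply, ph_s, sg_pow_s, hj]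
    · rw [Fin.val_one, pow_one, AlgEquiv.mul_apply, ph_w, map_pow, sg_pow_w, h]

theorem wL_prim : IsPrimitiveRoot wL 3 := by
  have hw1 := wL_ne_one
  refine IsPrimitiveRoot.mk_of_lt wL (by norm_num) wL_cube ?_
  intro l hl0 hl3 hl
  interval_cases l
  · exact hw1 (by simpa using hl)
  · apply hw1
    have := wL_cube
    have h4 : wL = wL ^ 3 := by
      calc wL = wL * wL ^ 2 := by rw [hl, mul_one]
        _ = wL ^ 3 := by ring
    rw [h4, this]

theorem gal_inj (j j' : Fin 3) (i i' : Fin 2)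
    (h : sg ^ (j : ℕ) * ph ^ (i : ℕ) = sg ^ (j' : ℕ) * ph ^ (i' : ℕ)) : j = j' ∧ i = i' := by
  have h1 := DFunLike.congr_fun h sL
  have h2 := DFunLike.congr_fun h wL
  rw [AlgEquiv.mul_apply, AlgEquiv.mul_apply, ph_pow_s, ph_pow_s, sg_pow_s, sg_pow_s] at h1
  have h3 : wL ^ (j : ℕ) = wL ^ (j' : ℕ) := mul_right_cancel₀ sL_ne_zero h1
  have hw1 := wL_ne_one
  have hw0 := wL_ne_zero
  have hjj : (j : ℕ) = (j' : ℕ) := wL_prim.pow_inj j.2 j'.2 h3
  refine ⟨Fin.ext hjj, ?_⟩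
  have hww : wL ^ 2 ≠ wL := by
    intro h5
    have : wL * (wL - 1) = 0 := by linear_combination h5
    rcases mul_eq_zero.mp this with h6 | h6
    · exact hw0 h6
    · exact hw1 (sub_eq_zero.mp h6)
  rw [AlgEquiv.mul_apply, AlgEquiv.mul_apply] at h2
  have e0 : ∀ j : ℕ, (sg ^ j) ((ph ^ 0) wL) = wL := by
    intro j
    rw [pow_zero, AlgEquiv.one_apply, sg_pow_w]
  have e1 : ∀ j : ℕ, (sg ^ j) ((ph ^ 1) wL) = wL ^ 2 := by
    intro j
    rw [pow_one, ph_w, map_pow, sg_pow_w]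
  fin_cases i <;> fin_cases i'
  · rfl
  · exfalso
    change (sg ^ (j : ℕ)) ((ph ^ 0) wL) = (sg ^ (j' : ℕ)) ((ph ^ 1) wL) at h2
    rw [e0, e1] at h2
    exact hww h2.symm
  · exfalso
    change (sg ^ (j : ℕ)) ((ph ^ 1) wL) = (sg ^ (j' : ℕ)) ((ph ^ 0) wL) at h2
    rw [e0, e1] at h2
    exact hww h2
  · rfl

/-- The enumeration of the Galois group. -/
noncomputable def galEquiv : Fin 3 × Fin 2 ≃ (L₀ ≃ₐ[K₀] L₀) :=
  Equiv.ofBijective (fun x => sg ^ (x.1 : ℕ) * ph ^ (x.2 : ℕ))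
    ⟨fun x y h => by
      obtain ⟨h1, h2⟩ := gal_inj x.1 y.1 x.2 y.2 h
      exact Prod.ext h1 h2,
    fun τ => by
      obtain ⟨j, i, h⟩ := gal_cases τ
      exact ⟨(j, i), h.symm⟩⟩

theorem galEquiv_apply (j : Fin 3) (i : Fin 2) :
    galEquiv (j, i) = sg ^ (j : ℕ) * ph ^ (i : ℕ) := rfl

noncomputable instance : Fintype (L₀ ≃ₐ[K₀] L₀) := Fintype.ofEquiv _ galEquiv

theorem sum_gal {M : Type*} [AddCommMonoid M] (f : (L₀ ≃ₐ[K₀] L₀) → M) :
    ∑ τ, f τ = f 1 + f sg + f (sg ^ 2) + (f ph + f (sg * ph) + f (sg ^ 2 * ph)) := by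
  rw [← Equiv.sum_comp galEquiv, Fintype.sum_prod_type]
  simp only [Fin.sum_univ_three, Fin.sum_univ_two, galEquiv_apply]
  simp
  abel

theorem adjoin_eq_top : IntermediateField.adjoin K₀ {sL, wL * sL, wL ^ 2 * sL} = ⊤ := by
  rw [eq_top_iff]
  intro x _
  have hs : sL ∈ IntermediateField.adjoin K₀ {sL, wL * sL, wL ^ 2 * sL} :=
    IntermediateField.subset_adjoin _ _ (by simp)
  have hws : wL * sL ∈ IntermediateField.adjoin K₀ {sL, wL * sL, wL ^ 2 * sL} :=
    IntermediateField.subset_adjoin _ _ (by simp)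
  have hw : wL ∈ IntermediateField.adjoin K₀ {sL, wL * sL, wL ^ 2 * sL} := by
    have h := div_mem hws hs
    have e : wL * sL / sL = wL := mul_div_cancel_right₀ _ sL_ne_zero
    rwa [e] at h
  obtain ⟨f, g, -, rfl⟩ := exists_div x
  have h1 := jL_mem (IntermediateField.adjoin K₀ {sL, wL * sL, wL ^ 2 * sL}).toSubfield.toSubring
    hs hw
  exact div_mem (h1 f) (h1 g)

theorem isSplittingField : IsSplittingField K₀ L₀ (X ^ 3 - C (algebraMap (ZMod 2)[X] K₀ X)) := by
  rw [isSplittingField_iff_intermediateField]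
  have hmap : (X ^ 3 - C (algebraMap (ZMod 2)[X] K₀ X) : K₀[X]).map (algebraMap K₀ L₀) =
      (X - C sL) * ((X - C (wL * sL)) * (X - C (wL ^ 2 * sL))) := by
    rw [Polynomial.map_sub, Polynomial.map_pow, map_X, map_C, ← IsScalarTower.algebraMap_apply,
      algebraMap_t]
    have hc : (C wL : L₀[X]) ^ 2 + C wL + 1 = 0 := by
      have := congrArg (C : L₀ → L₀[X]) wL_spec
      simpa using this
    have hc3 : (C wL : L₀[X]) ^ 3 = 1 := by
      have := congrArg (C : L₀ → L₀[X]) wL_cube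
      simpa using this
    simp only [C_mul, C_pow]
    linear_combination (X ^ 2 * C sL - X * C sL ^ 2) * hc + (C sL ^ 3 - X * C sL ^ 2) * hc3
  have hne : (X ^ 3 - C (algebraMap (ZMod 2)[X] K₀ X) : K₀[X]) ≠ 0 :=
    X_pow_sub_C_ne_zero (by norm_num) _
  refine ⟨?_, ?_⟩
  · rw [hmap]
    exact (Splits.X_sub_C _).mul ((Splits.X_sub_C _).mul (Splits.X_sub_C _))
  · rw [eq_top_iff, ← adjoin_eq_top]
    apply IntermediateField.adjoin.mono
    intro x hx
    rw [mem_rootSet']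
    rw [hmap]
    refine ⟨by rw [← hmap]; exact Polynomial.map_ne_zero hne, ?_⟩
    rw [aeval_def, eval₂_eq_eval_map, hmap]
    simp only [Set.mem_insert_iff, Set.mem_singleton_iff] at hx
    rcases hx with rfl | rfl | rfl <;> simp

instance : FiniteDimensional K₀ L₀ := by
  have := isSplittingField
  exact IsSplittingField.finiteDimensional L₀ (X ^ 3 - C (algebraMap (ZMod 2)[X] K₀ X))

instance : IsGalois K₀ L₀ := by
  have := isSplittingField
  apply IsGalois.of_separable_splitting_field (p := X ^ 3 - C (algebraMap (ZMod 2)[X] K₀ X))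
  apply separable_X_pow_sub_C
  · intro h
    have h2 : (algebraMap K₀ L₀) ((3 : ℕ) : K₀) = 0 := by rw [h, map_zero]
    have h3 := two_eq_zero
    push_cast at h2
    rw [map_ofNat] at h2
    have : (1 : L₀) = 0 := by linear_combination h2 - h3
    exact one_ne_zero this
  · intro h
    have := (IsFractionRing.injective (ZMod 2)[X] K₀) (by rw [h, map_zero] : _ = algebraMap (ZMod 2)[X] K₀ 0)
    exact X_ne_zero this

theorem nonabelian : sg * ph ≠ ph * sg := by
  intro h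
  have := DFunLike.congr_fun h sL
  simp only [AlgEquiv.mul_apply, ph_s, sg_s, map_mul, ph_w] at this
  have h2 := mul_right_cancel₀ sL_ne_zero this
  have : wL * (wL - 1) = 0 := by linear_combination -h2
  rcases mul_eq_zero.mp this with h6 | h6
  · exact wL_ne_zero h6
  · exact wL_ne_one (sub_eq_zero.mp h6)

theorem integral_aux (x : FractionRing F4[X])
    (h : (algebraMap F4[X] (FractionRing F4[X])).IsIntegralElem x) :
    ∃ f : F4[X], algebraMap F4[X] (FractionRing F4[X]) f = x := by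
  have h3 : IsIntegral F4[X] x := h
  exact IsIntegrallyClosed.isIntegral_iff.mp h3

/-- `𝔽₄[s]` is the integral closure of `𝔽₂[t]` in `L`. -/
theorem mem_integralClosure_iff (x : L₀) :
    x ∈ integralClosure (ZMod 2)[X] L₀ ↔ ∃ f : F4[X], x = jL f := by
  constructor
  · intro hx
    have h1 : (jL.comp iA).IsIntegralElem x := hx
    have h2 : jL.IsIntegralElem x := by
      obtain ⟨p, hp, hp2⟩ := h1
      exact ⟨p.map iA, hp.map iA, by rw [eval₂_map]; exact hp2⟩
    obtain ⟨f, hf⟩ := integral_aux x h2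
    exact ⟨f, hf.symm⟩
  · rintro ⟨f, rfl⟩
    have hs : sL ∈ integralClosure (ZMod 2)[X] L₀ := by
      refine ⟨X ^ 3 - C X, monic_X_pow_sub_C _ (by norm_num), ?_⟩
      rw [eval₂_sub, eval₂_pow, eval₂_X, eval₂_C, algebraMap_t, sub_self]
    have hw : wL ∈ integralClosure (ZMod 2)[X] L₀ := by
      refine ⟨X ^ 3 - C 1, monic_X_pow_sub_C _ (by norm_num), ?_⟩
      rw [eval₂_sub, eval₂_pow, eval₂_X, eval₂_C, map_one, wL_cube, sub_self]
    exact jL_mem (integralClosure (ZMod 2)[X] L₀).toSubring hs hw f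

end Pool.Agent.H29.HopfOrd
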