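import Pool.Agent.H29.HopfOrd.Galois
import Pool.Agent.H29.HopfOrd.Defs

set_option autoImplicit false

namespace Pool.Agent.H29.HopfOrd

open Polynomial TensorProduct

/-- `𝔽₂[t]` -/
abbrev R₀ : Type := (ZMod 2)[X]

/-- `𝔽₄[s]` as a subset of `L` -/
def B₀ : Set L₀ := (integralClosure R₀ L₀ : Set L₀)

theorem mem_B (x : L₀) : x ∈ B₀ ↔ ∃ f : F4[X], x = jL f := mem_integralClosure_iff x

theorem fixed_div (k : ℕ) (hk : k < 3) (y : L₀) (hy : sg y = y) (h : y * sL ^ k ∈ B₀) : y ∈ B₀ := by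
  rw [mem_B] at h
  obtain ⟨f, hf⟩ := h
  have h1 : sg (jL f) = wL ^ k * jL f := by
    rw [← hf, map_mul, hy, map_pow, sg_s]; ring
  have h2 : sigB om f = C (om ^ k) * f := by
    apply jL_injective
    rw [← sg_jL, h1, map_mul, C_pow, map_pow]; rfl
  have hd : X ^ k ∣ f := by
    rw [X_pow_dvd_iff]
    intro n hn
    have h3 := congrArg (fun p => coeff p n) h2
    simp only [sigB_coeff, coeff_C_mul] at h3
    have h4 : (om ^ n - om ^ k) * f.coeff n = 0 := by linear_combination h3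
    rcases mul_eq_zero.mp h4 with h5 | h5
    · exfalso
      have h6 : jL (C (om ^ n)) = jL (C (om ^ k)) := by rw [sub_eq_zero.mp h5]
      rw [C_pow, C_pow, map_pow, map_pow] at h6
      change wL ^ n = wL ^ k at h6
      have := wL_prim.pow_inj (hn.trans hk) hk h6
      omega
    · exact h5
  obtain ⟨g, rfl⟩ := hd
  rw [mem_B]
  refine ⟨g, ?_⟩
  rw [map_mul, map_pow] at hf
  change y * sL ^ k = sL ^ k * jL g at hf
  have hs := pow_ne_zero k sL_ne_zero
  apply mul_right_cancel₀ hs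
  rw [hf]; ring

theorem range_of_fixed (y : L₀) (h1 : sg y = y) (h2 : ph y = y) (h3 : y ∈ B₀) :
    y ∈ Set.range (algebraMap R₀ L₀) := by
  have h4 : ∀ τ : L₀ ≃ₐ[K₀] L₀, τ y = y := by
    intro τ
    obtain ⟨j, i, rfl⟩ := gal_cases τ
    have e1 : ∀ n : ℕ, (sg ^ n) y = y := by
      intro n
      induction n with
      | zero => simp
      | succ n ih => rw [pow_succ', AlgEquiv.mul_apply, ih, h1]
    have e2 : ∀ n : ℕ, (ph ^ n) y = y := by
      intro n
      induction n with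
      | zero => simp
      | succ n ih => rw [pow_succ', AlgEquiv.mul_apply, ih, h2]
    rw [AlgEquiv.mul_apply, e2, e1]
  have h5 := (IsGalois.mem_range_algebraMap_iff_fixed (F := K₀) (E := L₀) y).mpr h4
  obtain ⟨x, rfl⟩ := h5
  have h6 : IsIntegral R₀ (algebraMap K₀ L₀ x) := h3
  rw [isIntegral_algebraMap_iff (algebraMap K₀ L₀).injective] at h6
  obtain ⟨r, rfl⟩ := IsIntegrallyClosed.isIntegral_iff.mp h6
  exact ⟨r, by rw [← IsScalarTower.algebraMap_apply]⟩

end Pool.Agent.H29.HopfOrd
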