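import Pool.Agent.H29.HopfOrd.Hopf

set_option autoImplicit false

namespace Pool.Agent.H29.HopfOrd

open Polynomial TensorProduct

theorem actClassical_eq (z : MonoidAlgebra K₀ (L₀ ≃ₐ[K₀] L₀)) (x : L₀) :
    actClassical K₀ L₀ z x = ∑ τ, algebraMap K₀ L₀ (z.coeff τ) * τ x := by
  unfold actClassical
  rw [Finsupp.sum_fintype]
  intro i
  simp

theorem actLambda_eq (h : MonoidAlgebra L₀ (L₀ ≃ₐ[K₀] L₀)) (x : L₀) :
    actLambda K₀ L₀ h x = ∑ τ, h.coeff τ * τ⁻¹ x := by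
  unfold actLambda
  rw [Finsupp.sum_fintype]
  intro i
  simp

theorem jL_mem_B (f : F4[X]) : jL f ∈ B₀ := (mem_B _).mpr ⟨f, rfl⟩

theorem B_add {x y : L₀} (hx : x ∈ B₀) (hy : y ∈ B₀) : x + y ∈ B₀ :=
  (integralClosure R₀ L₀).add_mem hx hy

theorem B_sub {x y : L₀} (hx : x ∈ B₀) (hy : y ∈ B₀) : x - y ∈ B₀ :=
  (integralClosure R₀ L₀).toSubring.sub_mem hx hy

theorem B_mul {x y : L₀} (hx : x ∈ B₀) (hy : y ∈ B₀) : x * y ∈ B₀ :=
  (integralClosure R₀ L₀).mul_mem hx hy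

theorem B_s : sL ∈ B₀ := jL_mem_B X

theorem B_w : wL ∈ B₀ := jL_mem_B (C om)

theorem B_pow {x : L₀} (hx : x ∈ B₀) (n : ℕ) : x ^ n ∈ B₀ :=
  (integralClosure R₀ L₀).pow_mem hx n

theorem B_sg {x : L₀} (hx : x ∈ B₀) : sg x ∈ B₀ := by
  rw [mem_B] at hx
  obtain ⟨f, rfl⟩ := hx
  rw [sg_jL]; exact jL_mem_B _

theorem B_ph {x : L₀} (hx : x ∈ B₀) : ph x ∈ B₀ := by
  rw [mem_B] at hx
  obtain ⟨f, rfl⟩ := hx
  rw [ph_jL]; exact jL_mem_B _

theorem B_gal {x : L₀} (hx : x ∈ B₀) (τ : L₀ ≃ₐ[K₀] L₀) : τ x ∈ B₀ := by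
  obtain ⟨j, i, rfl⟩ := gal_cases τ
  have e1 : ∀ n : ℕ, ∀ y ∈ B₀, (sg ^ n) y ∈ B₀ := by
    intro n
    induction n with
    | zero => intro y hy; simpa using hy
    | succ n ih => intro y hy; rw [pow_succ', AlgEquiv.mul_apply]; exact B_sg (ih y hy)
  have e2 : ∀ n : ℕ, ∀ y ∈ B₀, (ph ^ n) y ∈ B₀ := by
    intro n
    induction n with
    | zero => intro y hy; simpa using hy
    | succ n ih => intro y hy; rw [pow_succ', AlgEquiv.mul_apply]; exact B_ph (ih y hy)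
  rw [AlgEquiv.mul_apply]
  exact e1 _ _ (e2 _ _ hx)

/-- Elements of `K` that are integral lie in `𝔽₂[t]`. -/
theorem range_of_K (a : K₀) (h : algebraMap K₀ L₀ a ∈ B₀) : a ∈ Set.range (algebraMap R₀ K₀) := by
  have h6 : IsIntegral R₀ (algebraMap K₀ L₀ a) := h
  rw [isIntegral_algebraMap_iff (algebraMap K₀ L₀).injective] at h6
  exact IsIntegrallyClosed.isIntegral_iff.mp h6

/-- The classical associated order is `𝔽₂[t][G]`. -/
theorem mem_assocClassical (z : MonoidAlgebra K₀ (L₀ ≃ₐ[K₀] L₀)) :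
    z ∈ assocClassical K₀ L₀ B₀ ↔ ∀ τ, z.coeff τ ∈ Set.range (algebraMap R₀ K₀) := by
  constructor
  · intro hz
    have hact : ∀ x, actClassical K₀ L₀ z x =
        algebraMap K₀ L₀ (z.coeff 1) * x + algebraMap K₀ L₀ (z.coeff sg) * sg x +
        algebraMap K₀ L₀ (z.coeff (sg ^ 2)) * sg (sg x) +
        (algebraMap K₀ L₀ (z.coeff ph) * ph x + algebraMap K₀ L₀ (z.coeff (sg * ph)) * sg (ph x) +
        algebraMap K₀ L₀ (z.coeff (sg ^ 2 * ph)) * sg (sg (ph x))) := by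
      intro x
      rw [actClassical_eq, sum_gal]
      simp only [AlgEquiv.one_apply, pow_two, AlgEquiv.mul_apply]
    set a0 := algebraMap K₀ L₀ (z.coeff 1) with ha0
    set a1 := algebraMap K₀ L₀ (z.coeff sg) with ha1
    set a2 := algebraMap K₀ L₀ (z.coeff (sg ^ 2)) with ha2
    set c0 := algebraMap K₀ L₀ (z.coeff ph) with hc0
    set c1 := algebraMap K₀ L₀ (z.coeff (sg * ph)) with hc1
    set c2 := algebraMap K₀ L₀ (z.coeff (sg ^ 2 * ph)) with hc2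
    have hw3 := wL_cube
    have hw := wL_spec
    have h2 := two_eq_zero
    have hsk : ∀ k : ℕ, sg (sL ^ k) = wL ^ k * sL ^ k := by
      intro k; rw [map_pow, sg_s]; ring
    have hpk : ∀ k : ℕ, ph (sL ^ k) = sL ^ k := by
      intro k; rw [map_pow, ph_s]
    have hwk : ∀ k : ℕ, sg (wL ^ k) = wL ^ k := by
      intro k; rw [map_pow, sg_w]
    have e1 : ∀ k : ℕ, actClassical K₀ L₀ z (sL ^ k) =
        (a0 + a1 * wL ^ k + a2 * (wL ^ k) ^ 2) * sL ^ k +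
        (c0 + c1 * wL ^ k + c2 * (wL ^ k) ^ 2) * sL ^ k := by
      intro k
      rw [hact, hpk, hsk, map_mul, hwk, hsk]
      ring
    have e2 : ∀ k : ℕ, actClassical K₀ L₀ z (wL * sL ^ k) =
        wL * ((a0 + a1 * wL ^ k + a2 * (wL ^ k) ^ 2) * sL ^ k) +
        wL ^ 2 * ((c0 + c1 * wL ^ k + c2 * (wL ^ k) ^ 2) * sL ^ k) := by
      intro k
      have q1 : sg (wL * sL ^ k) = wL * (wL ^ k * sL ^ k) := by rw [map_mul, hsk, sg_w]
      have q2 : sg (wL * (wL ^ k * sL ^ k)) = wL * (wL ^ k * (wL ^ k * sL ^ k)) := by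
        rw [map_mul, map_mul, hwk, hsk, sg_w]
      have q3 : ph (wL * sL ^ k) = wL ^ 2 * sL ^ k := by rw [map_mul, hpk, ph_w]
      have q4 : sg (wL ^ 2 * sL ^ k) = wL ^ 2 * (wL ^ k * sL ^ k) := by rw [map_mul, hsk, hwk]
      have q5 : sg (wL ^ 2 * (wL ^ k * sL ^ k)) = wL ^ 2 * (wL ^ k * (wL ^ k * sL ^ k)) := by
        rw [map_mul, map_mul, hwk, hwk, hsk]
      rw [hact, q3, q4, q5, q1, q2]
      ring
    have hc : ∀ k : ℕ, (c0 + c1 * wL ^ k + c2 * (wL ^ k) ^ 2) * sL ^ k ∈ B₀ := by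
      intro k
      have e3 := B_sub (B_mul B_w (hz (sL ^ k) (B_pow B_s k))) (hz (wL * sL ^ k) (B_mul B_w (B_pow B_s k)))
      rw [e1, e2] at e3
      have e4 : (c0 + c1 * wL ^ k + c2 * (wL ^ k) ^ 2) * sL ^ k =
        wL * ((a0 + a1 * wL ^ k + a2 * (wL ^ k) ^ 2) * sL ^ k +
        (c0 + c1 * wL ^ k + c2 * (wL ^ k) ^ 2) * sL ^ k) -
        (wL * ((a0 + a1 * wL ^ k + a2 * (wL ^ k) ^ 2) * sL ^ k) +
        wL ^ 2 * ((c0 + c1 * wL ^ k + c2 * (wL ^ k) ^ 2) * sL ^ k)) := by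
        linear_combination (c0 + c1 * wL ^ k + c2 * (wL ^ k) ^ 2) * sL ^ k * (hw - wL * h2)
      rw [e4]; exact e3
    have ha : ∀ k : ℕ, (a0 + a1 * wL ^ k + a2 * (wL ^ k) ^ 2) * sL ^ k ∈ B₀ := by
      intro k
      have e3 := B_sub (hz (sL ^ k) (B_pow B_s k)) (hc k)
      rw [e1] at e3
      simpa using e3
    have sgK : ∀ x : K₀, sg (algebraMap K₀ L₀ x) = algebraMap K₀ L₀ x := fun x => sg.commutes x
    have hc' : ∀ k < 3, c0 + c1 * wL ^ k + c2 * (wL ^ k) ^ 2 ∈ B₀ := by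
      intro k hk
      refine fixed_div k hk _ ?_ (hc k)
      have q0 : sg c0 = c0 := sgK _
      have q1 : sg c1 = c1 := sgK _
      have q2 : sg c2 = c2 := sgK _
      simp only [map_add, map_mul, map_pow, sg_w, q0, q1, q2]
    have ha' : ∀ k < 3, a0 + a1 * wL ^ k + a2 * (wL ^ k) ^ 2 ∈ B₀ := by
      intro k hk
      refine fixed_div k hk _ ?_ (ha k)
      have q0 : sg a0 = a0 := sgK _
      have q1 : sg a1 = a1 := sgK _
      have q2 : sg a2 = a2 := sgK _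
      simp only [map_add, map_mul, map_pow, sg_w, q0, q1, q2]
    have key : ∀ b0 b1 b2 : L₀, (∀ k < 3, b0 + b1 * wL ^ k + b2 * (wL ^ k) ^ 2 ∈ B₀) →
        b0 ∈ B₀ ∧ b1 ∈ B₀ ∧ b2 ∈ B₀ := by
      intro b0 b1 b2 hb
      have h0 := hb 0 (by norm_num)
      have h1 := hb 1 (by norm_num)
      have h2' := hb 2 (by norm_num)
      refine ⟨?_, ?_, ?_⟩
      · have e := B_add (B_add h0 h1) h2'
        have e' : b0 = b0 + b1 * wL ^ 0 + b2 * (wL ^ 0) ^ 2 + (b0 + b1 * wL ^ 1 + b2 * (wL ^ 1) ^ 2)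
            + (b0 + b1 * wL ^ 2 + b2 * (wL ^ 2) ^ 2) := by
          linear_combination (-b0) * h2 - b1 * hw - b2 * hw - b2 * wL * hw3
        rw [e']; exact e
      · have e := B_add (B_add h0 (B_mul (B_pow B_w 2) h1)) (B_mul B_w h2')
        have e' : b1 = b0 + b1 * wL ^ 0 + b2 * (wL ^ 0) ^ 2 +
            wL ^ 2 * (b0 + b1 * wL ^ 1 + b2 * (wL ^ 1) ^ 2)
            + wL * (b0 + b1 * wL ^ 2 + b2 * (wL ^ 2) ^ 2) := by
          linear_combination (-b1) * h2 - b0 * hw - b2 * hw - (2 * b1 + b2 * wL + b2 * wL ^ 2) * hw3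
        rw [e']; exact e
      · have e := B_add (B_add h0 (B_mul B_w h1)) (B_mul (B_pow B_w 2) h2')
        have e' : b2 = b0 + b1 * wL ^ 0 + b2 * (wL ^ 0) ^ 2 +
            wL * (b0 + b1 * wL ^ 1 + b2 * (wL ^ 1) ^ 2)
            + wL ^ 2 * (b0 + b1 * wL ^ 2 + b2 * (wL ^ 2) ^ 2) := by
          linear_combination (-b2) * h2 - b0 * hw - b1 * hw - b2 * hw3 - (b2 * (wL ^ 3 + 1) + b1 * wL) * hw3
        rw [e']; exact e
    obtain ⟨hA0, hA1, hA2⟩ := key _ _ _ ha'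
    obtain ⟨hC0, hC1, hC2⟩ := key _ _ _ hc'
    intro τ
    apply range_of_K
    obtain ⟨⟨j, i⟩, rfl⟩ := galEquiv.surjective τ
    rw [galEquiv_apply]
    fin_cases j <;> fin_cases i
    · simpa using hA0
    · simpa using hC0
    · simpa using hA1
    · simpa using hC1
    · simpa using hA2
    · simpa using hC2
  · intro hz x hx
    rw [actClassical_eq]
    have hmem : ∀ τ, algebraMap K₀ L₀ (z.coeff τ) * τ x ∈ B₀ := by
      intro τ
      refine B_mul ?_ (B_gal hx τ)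
      obtain ⟨r, hr⟩ := hz τ
      rw [← hr, ← IsScalarTower.algebraMap_apply]
      exact (integralClosure R₀ L₀).algebraMap_mem r
    exact (integralClosure R₀ L₀).sum_mem fun τ _ => hmem τ

end Pool.Agent.H29.HopfOrd
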