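import Pool.Agent.H29.HopfOrd.Defs

set_option autoImplicit false

namespace Pool.Agent.H29.HopfOrd

open Polynomial TensorProduct

section

variable {R K G : Type*} [CommRing R] [Field K] [Algebra R K] [Group G] [Fintype G]

omit [Group G] in
theorem sum_single (z : MonoidAlgebra K G) : z = ∑ τ, MonoidAlgebra.single τ (z.coeff τ) := by
  conv_lhs => rw [← MonoidAlgebra.sum_coeff_single z]
  rw [Finsupp.sum_fintype]
  intro i
  simp

theorem groupRing_isHopfOrder :
    IsHopfOrder R K (Set.univ : Set (MonoidAlgebra K G))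
      {z | ∀ τ, z.coeff τ ∈ Set.range (algebraMap R K)} := by
  classical
  set A : Set (MonoidAlgebra K G) := {z | ∀ τ, z.coeff τ ∈ Set.range (algebraMap R K)} with hA
  have hsingle : ∀ (τ : G) (c : K), c ∈ Set.range (algebraMap R K) →
      (MonoidAlgebra.single τ c : MonoidAlgebra K G) ∈ A := by
    intro τ c hc τ'
    rw [MonoidAlgebra.coeff_single, Finsupp.single_apply]
    split_ifs
    · exact hc
    · exact ⟨0, map_zero _⟩
  have hadd : ∀ a ∈ A, ∀ b ∈ A, a + b ∈ A := by
    intro a ha b hb τ
    obtain ⟨x, hx⟩ := ha τ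
    obtain ⟨y, hy⟩ := hb τ
    exact ⟨x + y, by rw [map_add, hx, hy]; rfl⟩
  have hzero : (0 : MonoidAlgebra K G) ∈ A := fun τ => ⟨0, map_zero _⟩
  have hsum : ∀ (ι : Type _) (s : Finset ι) (f : ι → MonoidAlgebra K G), (∀ i ∈ s, f i ∈ A) →
      ∑ i ∈ s, f i ∈ A := by
    intro ι s f
    induction s using Finset.induction_on with
    | empty => intro _; simpa using hzero
    | insert i s hi ih =>
      intro h
      rw [Finset.sum_insert hi]
      exact hadd _ (h i (Finset.mem_insert_self _ _)) _
        (ih fun j hj => h j (Finset.mem_insert_of_mem hj))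
  have h1 : ∀ τ : G, (MonoidAlgebra.single τ 1 : MonoidAlgebra K G) ∈ A :=
    fun τ => hsingle τ 1 ⟨1, map_one _⟩
  refine ⟨h1 1, ?_, ?_, ?_, ?_, ?_, ?_⟩
  · intro a ha b hb
    rw [sum_single a, sum_single b, Finset.sum_mul_sum]
    refine hsum _ _ _ fun i _ => hsum _ _ _ fun j _ => ?_
    rw [MonoidAlgebra.single_mul_single]
    obtain ⟨x, hx⟩ := ha i
    obtain ⟨y, hy⟩ := hb j
    exact hsingle _ _ ⟨x * y, by rw [map_mul, hx, hy]⟩
  · refine ⟨Finset.univ.image fun τ => MonoidAlgebra.single τ 1, ?_⟩
    ext z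
    rw [SetLike.mem_coe]
    constructor
    · intro hz
      induction hz using Submodule.span_induction with
      | mem x hx =>
        simp only [Finset.coe_image, Finset.coe_univ, Set.image_univ, Set.mem_range] at hx
        obtain ⟨τ, rfl⟩ := hx
        exact h1 τ
      | zero => exact hzero
      | add x y _ _ hx hy => exact hadd _ hx _ hy
      | smul r x _ hx =>
        intro τ
        obtain ⟨y, hy⟩ := hx τ
        refine ⟨r * y, ?_⟩
        rw [map_mul, hy, MonoidAlgebra.coeff_smul_apply, Algebra.smul_def]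
    · intro hz
      rw [sum_single z]
      refine Submodule.sum_mem _ fun τ _ => ?_
      obtain ⟨r, hr⟩ := hz τ
      have : (MonoidAlgebra.single τ (z.coeff τ) : MonoidAlgebra K G) =
          r • MonoidAlgebra.single τ 1 := by
        rw [MonoidAlgebra.smul_single, Algebra.smul_def, mul_one, hr]
      rw [this]
      exact Submodule.smul_mem _ _ (Submodule.subset_span (by simp))
  · rw [Set.eq_univ_iff_forall]
    intro z
    rw [SetLike.mem_coe, sum_single z]
    refine Submodule.sum_mem _ fun τ _ => ?_
    have : (MonoidAlgebra.single τ (z.coeff τ) : MonoidAlgebra K G) =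
        (z.coeff τ) • MonoidAlgebra.single τ 1 := by
      rw [MonoidAlgebra.smul_single, smul_eq_mul, mul_one]
    rw [this]
    exact Submodule.smul_mem _ _ (Submodule.subset_span (h1 τ))
  · intro a ha
    rw [sum_single a, map_sum]
    refine AddSubgroup.sum_mem _ fun τ _ => AddSubgroup.subset_closure ?_
    refine ⟨MonoidAlgebra.single τ 1, h1 τ, MonoidAlgebra.single τ (a.coeff τ), hsingle _ _ (ha τ), ?_⟩
    rw [MonoidAlgebra.comul_single, CommSemiring.comul_apply, TensorProduct.map_tmul]
    rfl
  · intro a ha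
    rw [sum_single a, map_sum]
    choose f hf using ha
    refine ⟨∑ τ, f τ, ?_⟩
    rw [map_sum]
    refine Finset.sum_congr rfl fun τ _ => ?_
    rw [MonoidAlgebra.counit_single, CommSemiring.counit_apply, hf]
  · intro a ha
    rw [sum_single a, map_sum]
    refine hsum _ _ _ fun τ _ => ?_
    rw [MonoidAlgebra.antipode_single]
    refine hsingle _ _ ?_
    rw [CommSemiring.antipode_eq_id]
    exact ha τ

end

end Pool.Agent.H29.HopfOrd
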