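import Pool.Agent.H29.HopfOrd.HopfB
import Pool.Agent.H29.HopfOrd.HopfC

set_option autoImplicit false

namespace Pool.Agent.H29.HopfOrd

open Polynomial TensorProduct

theorem sg_cube : sg * sg * sg = 1 := by
  apply gal_ext
  · simp only [AlgEquiv.mul_apply, sg_s, map_mul, sg_w, AlgEquiv.one_apply]
    linear_combination sL * wL_cube
  · simp only [AlgEquiv.mul_apply, sg_w, AlgEquiv.one_apply]

theorem ph_sq : ph * ph = 1 := by
  apply gal_ext
  · simp only [AlgEquiv.mul_apply, ph_s, AlgEquiv.one_apply]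
  · simp only [AlgEquiv.mul_apply, ph_w, map_pow, AlgEquiv.one_apply]
    linear_combination wL * wL_cube

theorem ph_sg : ph * sg = sg * sg * ph := by
  apply gal_ext
  · simp only [AlgEquiv.mul_apply, ph_s, sg_s, map_mul, ph_w, sg_w]
    ring
  · simp only [AlgEquiv.mul_apply, ph_w, sg_w, map_pow]

theorem inv_sg : sg⁻¹ = sg ^ 2 := by
  rw [inv_eq_iff_mul_eq_one, pow_two, ← mul_assoc, sg_cube]

theorem inv_sg2 : (sg ^ 2)⁻¹ = sg := by
  rw [inv_eq_iff_mul_eq_one, pow_two, sg_cube]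

theorem inv_ph : ph⁻¹ = ph := by
  rw [inv_eq_iff_mul_eq_one, ph_sq]

theorem inv_sg_ph : (sg * ph)⁻¹ = sg * ph := by
  rw [inv_eq_iff_mul_eq_one]
  calc sg * ph * (sg * ph) = sg * (ph * sg) * ph := by group
    _ = sg * (sg * sg * ph) * ph := by rw [ph_sg]
    _ = (sg * sg * sg) * (ph * ph) := by group
    _ = 1 := by rw [sg_cube, ph_sq, mul_one]

theorem inv_sg2_ph : (sg ^ 2 * ph)⁻¹ = sg ^ 2 * ph := by
  rw [inv_eq_iff_mul_eq_one]
  calc sg ^ 2 * ph * (sg ^ 2 * ph) = sg * sg * (ph * sg) * sg * ph := by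
        rw [pow_two]; simp only [mul_assoc]
    _ = sg * sg * (sg * sg * ph) * sg * ph := by rw [ph_sg]
    _ = (sg * sg * sg) * sg * (ph * sg) * ph := by group
    _ = (sg * sg * sg) * sg * (sg * sg * ph) * ph := by rw [ph_sg]
    _ = (sg * sg * sg) * (sg * sg * sg) * (ph * ph) := by group
    _ = 1 := by rw [sg_cube, ph_sq, mul_one, mul_one]

/-- The weight `(τ ω + ω) τ(s) / s²`. -/
noncomputable def wt (τ : L₀ ≃ₐ[K₀] L₀) : L₀ := (τ wL + wL) * τ sL / sL ^ 2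

theorem wt_one : wt 1 = 0 := by
  unfold wt
  rw [AlgEquiv.one_apply]
  have h2 := two_eq_zero
  have : wL + wL = 0 := by linear_combination wL * h2
  rw [this]; simp

theorem wt_sg : wt sg = 0 := by
  unfold wt
  rw [sg_w]
  have h2 := two_eq_zero
  have : wL + wL = 0 := by linear_combination wL * h2
  rw [this]; simp

theorem wt_sg2 : wt (sg ^ 2) = 0 := by
  unfold wt
  rw [sg_pow_w]
  have h2 := two_eq_zero
  have : wL + wL = 0 := by linear_combination wL * h2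
  rw [this]; simp

theorem wsq : wL ^ 2 + wL = 1 := by
  linear_combination wL_spec - two_eq_zero

theorem wt_ph : wt ph = sL⁻¹ := by
  unfold wt
  have := sL_ne_zero
  rw [ph_w, ph_s, wsq]; field_simp

theorem wt_sg_ph : wt (sg * ph) = wL * sL⁻¹ := by
  unfold wt
  have := sL_ne_zero
  rw [AlgEquiv.mul_apply, AlgEquiv.mul_apply, ph_w, ph_s, map_pow, sg_w, sg_s, wsq]; field_simp

theorem wt_sg2_ph : wt (sg ^ 2 * ph) = wL ^ 2 * sL⁻¹ := by
  unfold wt
  have := sL_ne_zero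
  rw [AlgEquiv.mul_apply, AlgEquiv.mul_apply, ph_w, ph_s, map_pow, sg_pow_w, sg_pow_s, wsq]
  field_simp

/-- The element `h₀`. -/
noncomputable def h0 : MonoidAlgebra L₀ (L₀ ≃ₐ[K₀] L₀) := ∑ τ, MonoidAlgebra.single τ (wt τ)

theorem h0_coeff (τ : L₀ ≃ₐ[K₀] L₀) : h0.coeff τ = wt τ := by
  classical
  unfold h0
  rw [MonoidAlgebra.coeff_sum, Finsupp.finsetSum_apply]
  simp only [MonoidAlgebra.coeff_single, Finsupp.single_apply]
  rw [Finset.sum_ite_eq' Finset.univ τ]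
  simp

theorem tau_w (τ : L₀ ≃ₐ[K₀] L₀) : τ wL = wL ∨ τ wL = wL ^ 2 := by
  have hw : (τ wL) ^ 2 + τ wL + 1 = 0 := by
    have := congrArg τ wL_spec
    simpa using this
  have h1 : (τ wL - wL) * (τ wL - wL ^ 2) = 0 := by
    linear_combination hw - τ wL * wL_spec + wL_cube
  rcases mul_eq_zero.mp h1 with h | h
  · exact Or.inl (sub_eq_zero.mp h)
  · exact Or.inr (sub_eq_zero.mp h)

theorem wt_conj_sg (τ : L₀ ≃ₐ[K₀] L₀) : wt (sg * τ * sg⁻¹) = sg (wt τ) := by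
  have hs := sL_ne_zero
  have hw0 := wL_ne_zero
  have h2 := two_eq_zero
  unfold wt
  have e1 : (sg * τ * sg⁻¹) wL = sg (τ wL) := by
    rw [inv_sg, AlgEquiv.mul_apply, AlgEquiv.mul_apply, sg_pow_w]
  have e2 : (sg * τ * sg⁻¹) sL = sg (τ wL) ^ 2 * sg (τ sL) := by
    rw [inv_sg, AlgEquiv.mul_apply, AlgEquiv.mul_apply, sg_pow_s, map_mul, map_pow, map_mul, map_pow]
  have e3 : sg ((τ wL + wL) * τ sL / sL ^ 2) =
      (sg (τ wL) + wL) * sg (τ sL) / (wL * sL) ^ 2 := by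
    rw [map_div₀, map_mul, map_add, map_pow, sg_w, sg_s]
  rw [e1, e2, e3]
  rcases tau_w τ with h | h
  · rw [h, sg_w]
    have : wL + wL = 0 := by linear_combination wL * h2
    rw [this]; simp
  · rw [h, map_pow, sg_w, wsq]
    have e : (wL ^ 2) ^ 2 = wL := by linear_combination wL * wL_cube
    rw [e, mul_pow, one_mul, one_mul]
    field_simp
    linear_combination (sg (τ sL)) * wL_cube

theorem wt_conj_ph (τ : L₀ ≃ₐ[K₀] L₀) : wt (ph * τ * ph⁻¹) = ph (wt τ) := by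
  have hs := sL_ne_zero
  have hw0 := wL_ne_zero
  have h2 := two_eq_zero
  unfold wt
  rw [inv_ph, AlgEquiv.mul_apply, AlgEquiv.mul_apply, ph_w, AlgEquiv.mul_apply,
    AlgEquiv.mul_apply, ph_s, map_div₀, map_mul, map_add, map_pow, map_pow, map_pow, ph_s, ph_w]
  have e : (wL ^ 2) ^ 2 = wL := by linear_combination wL * wL_cube
  rcases tau_w τ with h | h
  · rw [h, ph_w, e]
    have e3 : wL + wL = 0 := by linear_combination wL * h2
    have e4 : wL ^ 2 + wL ^ 2 = 0 := by linear_combination wL ^ 2 * h2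
    rw [e3, e4]
  · rw [h, map_pow, ph_w, e, wsq]
    have e5 : wL + wL ^ 2 = 1 := by rw [add_comm, wsq]
    rw [e5]

theorem wt_conj (g τ : L₀ ≃ₐ[K₀] L₀) : wt (g * τ * g⁻¹) = g (wt τ) := by
  have hmul : ∀ a b : L₀ ≃ₐ[K₀] L₀, (∀ τ, wt (a * τ * a⁻¹) = a (wt τ)) →
      (∀ τ, wt (b * τ * b⁻¹) = b (wt τ)) → ∀ τ, wt (a * b * τ * (a * b)⁻¹) = (a * b) (wt τ) := by
    intro a b ha hb τ
    have : a * b * τ * (a * b)⁻¹ = a * (b * τ * b⁻¹) * a⁻¹ := by group
    rw [this, ha, hb, AlgEquiv.mul_apply]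
  have hpow : ∀ a : L₀ ≃ₐ[K₀] L₀, (∀ τ, wt (a * τ * a⁻¹) = a (wt τ)) → ∀ n : ℕ,
      ∀ τ, wt (a ^ n * τ * (a ^ n)⁻¹) = (a ^ n) (wt τ) := by
    intro a ha n
    induction n with
    | zero => simp
    | succ n ih =>
      rw [pow_succ]
      exact hmul _ _ ih ha
  obtain ⟨j, i, rfl⟩ := gal_cases g
  exact hmul _ _ (hpow _ wt_conj_sg _) (hpow _ wt_conj_ph _) τ

theorem h0_mem_H : h0 ∈ HLambda K₀ L₀ := by
  intro g τ
  rw [h0_coeff, h0_coeff, wt_conj]

/-- `h₀` preserves `𝔽₄[s]`. -/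
theorem h0_act (f : F4[X]) : actLambda K₀ L₀ h0 (jL f) ∈ B₀ := by
  rw [actLambda_eq]
  simp only [h0_coeff]
  rw [sum_gal, wt_one, wt_sg, wt_sg2, wt_ph, wt_sg_ph, wt_sg2_ph, inv_ph, inv_sg_ph, inv_sg2_ph]
  have e0 : (sg ^ 2 * ph) (jL f) = jL (sigB om (sigB om (phiE f))) := by
    rw [pow_two]
    simp only [AlgEquiv.mul_apply, ph_jL, sg_jL]
  rw [e0]
  simp only [AlgEquiv.mul_apply, zero_mul, zero_add, ph_jL, sg_jL]
  have e1 : sL⁻¹ * jL (phiE f) + wL * sL⁻¹ * jL (sigB om (phiE f)) +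
      wL ^ 2 * sL⁻¹ * jL (sigB om (sigB om (phiE f))) =
      sL⁻¹ * jL (phiE f + C om * sigB om (phiE f) + C (om ^ 2) * sigB om (sigB om (phiE f))) := by
    simp only [map_add, map_mul, map_pow]
    change _ = sL⁻¹ * (jL (phiE f) + wL * jL (sigB om (phiE f)) +
      wL ^ 2 * jL (sigB om (sigB om (phiE f))))
    ring
  rw [e1]
  have hd : X ∣ (phiE f + C om * sigB om (phiE f) + C (om ^ 2) * sigB om (sigB om (phiE f))) := by
    rw [X_dvd_iff]
    simp only [coeff_add, coeff_C_mul, sigB_coeff, phiE_coeff]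
    linear_combination (f.coeff 0) ^ 2 * om_spec
  obtain ⟨g, hg⟩ := hd
  rw [hg, map_mul, ← mul_assoc]
  change sL⁻¹ * sL * jL g ∈ B₀
  rw [inv_mul_cancel₀ sL_ne_zero, one_mul]
  exact jL_mem_B g

theorem h0_mem : h0 ∈ assocLambda K₀ L₀ B₀ := by
  refine ⟨h0_mem_H, fun x hx => ?_⟩
  rw [mem_B] at hx
  obtain ⟨f, rfl⟩ := hx
  exact h0_act f

/-- The functional `ψ`. -/
noncomputable def psi : MonoidAlgebra L₀ (L₀ ≃ₐ[K₀] L₀) →ₗ[L₀] L₀ :=
  (Finsupp.linearCombination L₀ wt) ∘ₗ (MonoidAlgebra.coeffLinearEquiv L₀).toLinearMap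

theorem psi_single (τ : L₀ ≃ₐ[K₀] L₀) (c : L₀) : psi (MonoidAlgebra.single τ c) = c * wt τ := by
  have : psi (MonoidAlgebra.single τ c) = Finsupp.linearCombination L₀ wt (Finsupp.single τ c) := rfl
  rw [this, Finsupp.linearCombination_single, smul_eq_mul]

theorem psi_eq (h : MonoidAlgebra L₀ (L₀ ≃ₐ[K₀] L₀)) : psi h = ∑ τ, h.coeff τ * wt τ := by
  conv_lhs => rw [sum_single h]
  rw [map_sum]
  simp only [psi_single]

theorem psi_formula (h : MonoidAlgebra L₀ (L₀ ≃ₐ[K₀] L₀)) : psi h =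
    sL⁻¹ * (h.coeff ph + wL * h.coeff (sg * ph) + wL ^ 2 * h.coeff (sg ^ 2 * ph)) := by
  rw [psi_eq, sum_gal, wt_one, wt_sg, wt_sg2, wt_ph, wt_sg_ph, wt_sg2_ph]
  ring

theorem psi_mem (h : MonoidAlgebra L₀ (L₀ ≃ₐ[K₀] L₀)) (hh : h ∈ assocLambda K₀ L₀ B₀) :
    psi h ∈ Set.range (algebraMap R₀ L₀) := by
  obtain ⟨hH, hB⟩ := hh
  have hs0 := sL_ne_zero
  have hw0 := wL_ne_zero
  have hw3 := wL_cube
  -- conjugation relations
  have c1 : sg * ph * sg⁻¹ = sg ^ 2 * ph := by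
    rw [inv_sg]
    calc sg * ph * sg ^ 2 = sg * (ph * sg) * sg := by rw [pow_two]; simp only [mul_assoc]
      _ = sg * (sg * sg * ph) * sg := by rw [ph_sg]
      _ = sg * sg * sg * (ph * sg) := by simp only [mul_assoc]
      _ = sg ^ 2 * ph := by rw [sg_cube, one_mul, ph_sg, pow_two]
  have c2 : sg * (sg ^ 2 * ph) * sg⁻¹ = sg * ph := by
    calc sg * (sg ^ 2 * ph) * sg⁻¹ = sg * sg * (sg * ph * sg⁻¹) := by
          rw [pow_two]; simp only [mul_assoc]
      _ = sg * sg * sg * sg * ph := by rw [c1, pow_two]; simp only [mul_assoc]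
      _ = sg * ph := by rw [sg_cube, one_mul]
  have c3 : sg * (sg * ph) * sg⁻¹ = ph := by
    calc sg * (sg * ph) * sg⁻¹ = sg * (sg * ph * sg⁻¹) := by simp only [mul_assoc]
      _ = sg * sg * sg * ph := by rw [c1, pow_two]; simp only [mul_assoc]
      _ = ph := by rw [sg_cube, one_mul]
  have d1 : ph * ph * ph⁻¹ = ph := by group
  have d2 : ph * (sg * ph) * ph⁻¹ = sg ^ 2 * ph := by
    rw [inv_ph]
    calc ph * (sg * ph) * ph = (ph * sg) * (ph * ph) := by simp only [mul_assoc]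
      _ = sg ^ 2 * ph := by rw [ph_sq, mul_one, ph_sg, pow_two]
  have d3 : ph * (sg ^ 2 * ph) * ph⁻¹ = sg * ph := by
    rw [inv_ph]
    calc ph * (sg ^ 2 * ph) * ph = (ph * sg) * sg * (ph * ph) := by
          rw [pow_two]; simp only [mul_assoc]
      _ = sg * sg * ph * sg := by rw [ph_sq, mul_one, ph_sg]
      _ = sg * sg * (ph * sg) := by simp only [mul_assoc]
      _ = sg * sg * sg * sg * ph := by rw [ph_sg]; simp only [mul_assoc]
      _ = sg * ph := by rw [sg_cube, one_mul]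
  have r1 := hH sg ph
  have r2 := hH sg (sg ^ 2 * ph)
  have r3 := hH sg (sg * ph)
  have q1 := hH ph ph
  have q2 := hH ph (sg * ph)
  have q3 := hH ph (sg ^ 2 * ph)
  rw [c1] at r1
  rw [c2] at r2
  rw [c3] at r3
  rw [d1] at q1
  rw [d2] at q2
  rw [d3] at q3
  have f1 : sg (psi h) = psi h := by
    rw [psi_formula]
    generalize h.coeff ph = a0 at *
    generalize h.coeff (sg * ph) = a1 at *
    generalize h.coeff (sg ^ 2 * ph) = a2 at *
    simp only [map_mul, map_add, map_pow, sg_w, ← r1, ← r2, ← r3, map_inv₀, sg_s]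
    field_simp
    linear_combination (-a2) * hw3
  have f2 : ph (psi h) = psi h := by
    rw [psi_formula]
    generalize h.coeff ph = a0 at *
    generalize h.coeff (sg * ph) = a1 at *
    generalize h.coeff (sg ^ 2 * ph) = a2 at *
    simp only [map_mul, map_add, map_pow, ph_w, ← q1, ← q2, ← q3, map_inv₀, ph_s]
    linear_combination sL⁻¹ * wL * a1 * hw3
  apply range_of_fixed _ f1 f2
  · refine fixed_div 2 (by norm_num) _ f1 ?_
    · have e1 := hB sL B_s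
      have e2 := hB (wL * sL) (B_mul B_w B_s)
      have e3 := B_sub (B_mul B_w e1) e2
      have e4 : psi h * sL ^ 2 = wL * actLambda K₀ L₀ h sL - actLambda K₀ L₀ h (wL * sL) := by
        rw [psi_formula, actLambda_eq, actLambda_eq, sum_gal, sum_gal, inv_one, inv_sg, inv_sg2,
          inv_ph, inv_sg_ph, inv_sg2_ph]
        simp only [AlgEquiv.one_apply, pow_two, AlgEquiv.mul_apply, map_mul, ph_s, ph_w, sg_s, sg_w]
        field_simp
        linear_combination (h.coeff ph + wL * h.coeff (sg * ph) + wL * wL * h.coeff (sg * sg * ph)) *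
          (wL_spec - wL * two_eq_zero)
      rw [e4]; exact e3

/-- The functional `Ψ = mul ∘ (ψ ⊗ ψ)`. -/
noncomputable def Psi : MonoidAlgebra L₀ (L₀ ≃ₐ[K₀] L₀) ⊗[L₀] MonoidAlgebra L₀ (L₀ ≃ₐ[K₀] L₀) →ₗ[L₀] L₀ :=
  (LinearMap.mul' L₀ L₀) ∘ₗ TensorProduct.map psi psi

theorem Psi_tmul (x y : MonoidAlgebra L₀ (L₀ ≃ₐ[K₀] L₀)) : Psi (x ⊗ₜ y) = psi x * psi y := by
  simp [Psi]

theorem Psi_h0 : Psi (Coalgebra.comul (R := L₀) h0) * sL ^ 3 = 1 := by
  unfold h0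
  rw [map_sum, map_sum]
  have : ∀ τ, Psi (Coalgebra.comul (R := L₀) (MonoidAlgebra.single τ (wt τ))) = wt τ * wt τ * wt τ := by
    intro τ
    rw [MonoidAlgebra.comul_single, CommSemiring.comul_apply, TensorProduct.map_tmul]
    change Psi (MonoidAlgebra.single τ 1 ⊗ₜ MonoidAlgebra.single τ (wt τ)) = _
    rw [Psi_tmul, psi_single, psi_single]
    ring
  simp only [this]
  rw [sum_gal, wt_one, wt_sg, wt_sg2, wt_ph, wt_sg_ph, wt_sg2_ph]
  have hs0 := sL_ne_zero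
  field_simp
  linear_combination (wL ^ 3 + 2) * wL_cube + two_eq_zero

theorem lambda_not_isHopfOrder : ¬ IsHopfOrder R₀ K₀ (HLambda K₀ L₀) (assocLambda K₀ L₀ B₀) := by
  intro h
  have h1 := h.comul_mem h0 h0_mem
  have h2 : Psi (Coalgebra.comul (R := L₀) h0) ∈ Set.range (algebraMap R₀ L₀) := by
    refine AddSubgroup.closure_induction
      (p := fun w _ => Psi w ∈ Set.range (algebraMap R₀ L₀)) ?_ ?_ ?_ ?_ h1
    · rintro w ⟨x, hx, y, hy, rfl⟩
      rw [Psi_tmul]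
      obtain ⟨a, ha⟩ := psi_mem x hx
      obtain ⟨b, hb⟩ := psi_mem y hy
      exact ⟨a * b, by rw [map_mul, ha, hb]⟩
    · exact ⟨0, by rw [map_zero, map_zero]⟩
    · rintro x y - - ⟨a, ha⟩ ⟨b, hb⟩
      exact ⟨a + b, by rw [map_add, map_add, ha, hb]⟩
    · rintro x - ⟨a, ha⟩
      exact ⟨-a, by rw [map_neg, map_neg, ha]⟩
  obtain ⟨r, hr⟩ := h2
  have h3 := Psi_h0
  rw [← hr, ← algebraMap_t, ← map_mul] at h3
  have h4 : r * X = 1 := by
    apply algebraMap_AL_injective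
    rw [h3, map_one]
  have h5 : IsUnit (X : (ZMod 2)[X]) := IsUnit.of_mul_eq_one r (by rw [mul_comm]; exact h4)
  exact Polynomial.not_isUnit_X h5

theorem classical_isHopfOrder :
    IsHopfOrder R₀ K₀ (Set.univ : Set (MonoidAlgebra K₀ (L₀ ≃ₐ[K₀] L₀)))
      (assocClassical K₀ L₀ B₀) := by
  have h : assocClassical K₀ L₀ B₀ =
      {z : MonoidAlgebra K₀ (L₀ ≃ₐ[K₀] L₀) | ∀ τ, z.coeff τ ∈ Set.range (algebraMap R₀ K₀)} := by
    ext z
    exact mem_assocClassical z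
  rw [h]
  exact groupRing_isHopfOrder

end Pool.Agent.H29.HopfOrd
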